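import Pool.Agent.V5helper79.PP.Conv

/-!
# Project PP: simple polyhedra
-/

set_option autoImplicit false

namespace Pool.Agent.V5helper79.PP.Conv

open Pool.Agent.R118.PM Filter Topology

variable {ι : Type} [Fintype ι]

/-- Every vertex of the polyhedron `P` lies in exactly three panels. -/
def Simple (P : Pool.Agent.R118.PM.Poly ι) : Prop :=
  ∀ v ∈ P.body.extremePoints ℝ, {i | v ∈ P.face i}.ncard = 3

theorem indep_of_dual {κ : Type} [Fintype κ] [DecidableEq κ] {w N : κ → E3}
    (h0 : ∀ m k, k ≠ m → inner ℝ (N m) (w k) = 0) (h1 : ∀ m, inner ℝ (N m) (w m) ≠ 0) : LinearIndependent ℝ w := by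
  rw [Fintype.linearIndependent_iff]
  intro g hg m
  have h2 : inner ℝ (N m) (∑ k, g k • w k) = g m * inner ℝ (N m) (w m) := by
    rw [inner_sum, Finset.sum_eq_single m]
    · rw [inner_smul_right]
    · intro k _ hk
      rw [inner_smul_right, h0 m k hk, mul_zero]
    · intro h
      exact absurd (Finset.mem_univ m) h
  rw [hg, inner_zero_right] at h2
  rcases mul_eq_zero.1 h2.symm with h | h
  · exact h
  · exact absurd h (h1 m)

/-- two of the three panels at a vertex have an edge in common -/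
theorem edge_three {P : Pool.Agent.R118.PM.Poly ι} (hP : IsPolyhedron P) {v : E3}
    (hv : v ∈ P.body.extremePoints ℝ) {i j k : ι} (hij : i ≠ j) (hik : i ≠ k)
    (hi : v ∈ P.face i) (hj : v ∈ P.face j) (hk : v ∈ P.face k)
    (hall : ∀ l, v ∈ P.face l → l = i ∨ l = j ∨ l = k) : ∃ y ∈ P.face i ∩ P.face j, y ≠ v := by
  obtain ⟨a, b, ha, hb, hA, hB, y, hy, hyv, hye⟩ := connect hP hv (P.face i ∩ P.face k)
    (fun c hc => edge_sub hP hik hi hk hc.ne) (fun l => l = i) ⟨i, hi, rfl⟩ ⟨j, hj, fun h => hij h.symm⟩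
  subst hA
  rcases hall b hb with h | h | h
  · exact absurd h hB
  · subst h
    exact ⟨y, hy, hyv⟩
  · subst h
    exact absurd hy hye

/-- the normals at a vertex span the space -/
theorem normals_span {P : Pool.Agent.R118.PM.Poly ι} {v : E3}
    (hv : v ∈ P.body.extremePoints ℝ) {w : E3} (hw : ∀ l, v ∈ P.face l → inner ℝ (P.n l) w = 0) : w = 0 := by
  have hvb : v ∈ P.body := hv.1
  have hev : ∀ᶠ ε in 𝓝 (0 : ℝ), ∀ l, v ∉ P.face l → inner ℝ (P.n l) (v + ε • w) < P.b l := by
    rw [eventually_all]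
    intro l
    by_cases hl : v ∈ P.face l
    · exact Eventually.of_forall fun ε h => absurd hl h
    · have h1 : inner ℝ (P.n l) (v + (0 : ℝ) • w) < P.b l := by
        rw [zero_smul, add_zero]
        exact lt_of_le_of_ne (hvb l) fun h => hl ⟨hvb, h⟩
      have h2 : ContinuousAt (fun ε : ℝ => inner ℝ (P.n l) (v + ε • w)) 0 := by fun_prop
      filter_upwards [h2.eventually_lt_const h1] with ε hε _ using hε
  rw [Metric.eventually_nhds_iff] at hev
  obtain ⟨δ, hδ, hε⟩ := hev
  have hin : ∀ ε : ℝ, |ε| < δ → v + ε • w ∈ P.body := by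
    intro ε hε' l
    by_cases hl : v ∈ P.face l
    · rw [inner_add_right, inner_smul_right, hw l hl, mul_zero, add_zero]
      exact hvb l
    · exact (hε (by rw [dist_zero_right]; exact hε') l hl).le
  have h1 := hin (δ / 2) (by rw [abs_of_pos (by positivity)]; linarith)
  have h2 := hin (-(δ / 2)) (by rw [abs_neg, abs_of_pos (by positivity)]; linarith)
  have h3 : v ∈ openSegment ℝ (v + (δ / 2) • w) (v + (-(δ / 2)) • w) := by
    refine ⟨1 / 2, 1 / 2, by norm_num, by norm_num, by norm_num, ?_⟩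
    module
  have h4 := (mem_extremePoints.1 hv).2 _ h1 _ h2 h3
  have h5 : v + (δ / 2) • w = v := by
    first | exact h4.1 | exact h4
  have h6 : (δ / 2) • w = 0 := add_eq_left.1 h5
  rcases smul_eq_zero.1 h6 with h | h
  · linarith
  · exact h

/-- the three panels at a vertex of degree three are glued -/
theorem glued_three {P : Pool.Agent.R118.PM.Poly ι} (hP : IsPolyhedron P) {v : E3}
    (hv : v ∈ P.body.extremePoints ℝ) {i j k : ι} (hij : i ≠ j) (hik : i ≠ k) (hjk : j ≠ k)
    (hi : v ∈ P.face i) (hj : v ∈ P.face j) (hk : v ∈ P.face k)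
    (hall : ∀ l, v ∈ P.face l → l = i ∨ l = j ∨ l = k) : Glued P i j := by
  obtain ⟨a, ha, hav⟩ := edge_three hP hv hij hik hi hj hk hall
  obtain ⟨b, hb, hbv⟩ := edge_three hP hv hjk hij.symm hj hk hi (fun l hl => by
    rcases hall l hl with h | h | h
    · exact Or.inr (Or.inr h)
    · exact Or.inl h
    · exact Or.inr (Or.inl h))
  obtain ⟨c, hc, hcv⟩ := edge_three hP hv hik.symm hjk.symm hk hi hj (fun l hl => by
    rcases hall l hl with h | h | h
    · exact Or.inr (Or.inl h)
    · exact Or.inr (Or.inr h)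
    · exact Or.inl h)
  have horth : ∀ l, v ∈ P.face l → ∀ y ∈ P.face l, inner ℝ (P.n l) (y - v) = 0 := by
    intro l hl y hy
    rw [inner_sub_right, hy.2, hl.2, sub_self]
  have hne : ∀ y, y ≠ v → ∀ l m n, l ≠ m → l ≠ n → m ≠ n → (∀ o, v ∈ P.face o → o = l ∨ o = m ∨ o = n) →
      v ∈ P.face l → v ∈ P.face m → y ∈ P.face l → y ∈ P.face m → inner ℝ (P.n n) (y - v) ≠ 0 := by
    intro y hy l m n _ _ _ hall' hl hm hyl hym h
    apply hy
    rw [← sub_eq_zero]
    refine normals_span hv fun o ho => ?_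
    rcases hall' o ho with rfl | rfl | rfl
    · exact horth _ hl y hyl
    · exact horth _ hm y hym
    · exact h
  obtain ⟨x, x0, x1, x2⟩ : ∃ x : ZMod 3 → ι, x 0 = i ∧ x 1 = j ∧ x 2 = k :=
    ⟨fun m => if m = 0 then i else if m = 1 then j else k, rfl, rfl, rfl⟩
  obtain ⟨y, y0, y1, y2⟩ : ∃ y : ZMod 3 → ι, y 0 = j ∧ y 1 = k ∧ y 2 = i :=
    ⟨fun m => if m = 0 then j else if m = 1 then k else i, rfl, rfl, rfl⟩
  obtain ⟨z, z0, z1, z2⟩ : ∃ z : ZMod 3 → ι, z 0 = k ∧ z 1 = i ∧ z 2 = j :=
    ⟨fun m => if m = 0 then k else if m = 1 then i else j, rfl, rfl, rfl⟩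
  obtain ⟨q, q0, q1, q2⟩ : ∃ q : ZMod 3 → E3, q 0 = a ∧ q 1 = b ∧ q 2 = c :=
    ⟨fun m => if m = 0 then a else if m = 1 then b else c, rfl, rfl, rfl⟩
  have cases3 : ∀ m : ZMod 3, m = 0 ∨ m = 1 ∨ m = 2 := by decide
  have e1 : (0 : ZMod 3) + 1 = 1 := by decide
  have e2 : (1 : ZMod 3) + 1 = 2 := by decide
  have e3 : (2 : ZMod 3) + 1 = 0 := by decide
  have hind : LinearIndependent ℝ fun m => q m - v := by
    refine indep_of_dual (N := fun m => P.n (z m)) (fun m n hmn => ?_) fun m => ?_
    · rcases cases3 m with rfl | rfl | rfl <;> rcases cases3 n with rfl | rfl | rfl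
      · exact absurd rfl hmn
      · show inner ℝ (P.n (z 0)) (q 1 - v) = 0
        rw [z0, q1]; exact horth _ hk _ hb.2
      · show inner ℝ (P.n (z 0)) (q 2 - v) = 0
        rw [z0, q2]; exact horth _ hk _ hc.1
      · show inner ℝ (P.n (z 1)) (q 0 - v) = 0
        rw [z1, q0]; exact horth _ hi _ ha.1
      · exact absurd rfl hmn
      · show inner ℝ (P.n (z 1)) (q 2 - v) = 0
        rw [z1, q2]; exact horth _ hi _ hc.2
      · show inner ℝ (P.n (z 2)) (q 0 - v) = 0
        rw [z2, q0]; exact horth _ hj _ ha.2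
      · show inner ℝ (P.n (z 2)) (q 1 - v) = 0
        rw [z2, q1]; exact horth _ hj _ hb.1
      · exact absurd rfl hmn
    · rcases cases3 m with rfl | rfl | rfl
      · show inner ℝ (P.n (z 0)) (q 0 - v) ≠ 0
        rw [z0, q0]
        exact hne a hav i j k hij hik hjk hall hi hj ha.1 ha.2
      · show inner ℝ (P.n (z 1)) (q 1 - v) ≠ 0
        rw [z1, q1]
        exact hne b hbv j k i hjk hij.symm hik.symm (fun l hl => by
          rcases hall l hl with h | h | h
          · exact Or.inr (Or.inr h)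
          · exact Or.inl h
          · exact Or.inr (Or.inl h)) hj hk hb.1 hb.2
      · show inner ℝ (P.n (z 2)) (q 2 - v) ≠ 0
        rw [z2, q2]
        exact hne c hcv k i j hik.symm hjk.symm hij (fun l hl => by
          rcases hall l hl with h | h | h
          · exact Or.inr (Or.inl h)
          · exact Or.inr (Or.inr h)
          · exact Or.inl h) hk hi hc.1 hc.2
  have h := Glued.tri v q x y (P := P) (fun m => by
      rcases cases3 m with rfl | rfl | rfl
      · rw [x0, y0]; exact ⟨hi, hj⟩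
      · rw [x1, y1]; exact ⟨hj, hk⟩
      · rw [x2, y2]; exact ⟨hk, hi⟩) (fun m => by
      rcases cases3 m with rfl | rfl | rfl
      · rw [x0, y0, q0]; exact ha
      · rw [x1, y1, q1]; exact hb
      · rw [x2, y2, q2]; exact hc) hind (fun m => by
      rcases cases3 m with rfl | rfl | rfl
      · rw [e1, y0, x1]; exact Glued.refl _
      · rw [e2, y1, x2]; exact Glued.refl _
      · rw [e3, y2, x0]; exact Glued.refl _)
  rw [x0, y0] at h
  exact h

/-- panels with a common vertex are glued -/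
theorem glued_vertex {P : Pool.Agent.R118.PM.Poly ι} (hP : IsPolyhedron P) (hS : Simple P) {v : E3}
    (hv : v ∈ P.body.extremePoints ℝ) {l m : ι} (hl : v ∈ P.face l) (hm : v ∈ P.face m) : Glued P l m := by
  by_cases hlm : l = m
  · rw [hlm]; exact Glued.refl _
  obtain ⟨i, j, k, hij, hik, hjk, hset⟩ := Set.ncard_eq_three.1 (hS v hv)
  have hmem : ∀ o, v ∈ P.face o ↔ o = i ∨ o = j ∨ o = k := by
    intro o
    have h := Set.ext_iff.1 hset o
    simpa using h
  have hi := (hmem i).2 (Or.inl rfl)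
  have hj := (hmem j).2 (Or.inr (Or.inl rfl))
  have hk := (hmem k).2 (Or.inr (Or.inr rfl))
  have gij : Glued P i j := glued_three hP hv hij hik hjk hi hj hk fun o ho => (hmem o).1 ho
  have gjk : Glued P j k := glued_three hP hv hjk hij.symm hik.symm hj hk hi fun o ho => by
    rcases (hmem o).1 ho with h | h | h
    · exact Or.inr (Or.inr h)
    · exact Or.inl h
    · exact Or.inr (Or.inl h)
  have g : ∀ o, v ∈ P.face o → Glued P i o := by
    intro o ho
    rcases (hmem o).1 ho with rfl | rfl | rfl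
    · exact Glued.refl _
    · exact gij
    · exact Glued.trans _ _ _ gij gjk
  exact Glued.trans _ _ _ (Glued.symm _ _ (g l hl)) (g m hm)

theorem face_frontier {P : Pool.Agent.R118.PM.Poly ι} (hP : IsPolyhedron P) (l : ι) :
    P.face l ⊆ frontier P.body := by
  intro x hx
  refine ⟨subset_closure hx.1, fun hxi => ?_⟩
  obtain ⟨p, hp⟩ := hP.interior
  have hcont : ContinuousAt (fun ε : ℝ => x + ε • (x - p)) 0 := by fun_prop
  have h5 : (fun ε : ℝ => x + ε • (x - p)) 0 = x := by simp
  have hev : ∀ᶠ ε in 𝓝 (0 : ℝ), x + ε • (x - p) ∈ P.body := by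
    have h6 : P.body ∈ 𝓝 ((fun ε : ℝ => x + ε • (x - p)) 0) := by
      rw [h5]
      exact mem_interior_iff_mem_nhds.1 hxi
    exact hcont.eventually_mem h6
  have hev2 : ∀ᶠ ε in 𝓝[>] (0 : ℝ), x + ε • (x - p) ∈ P.body := hev.filter_mono nhdsWithin_le_nhds
  obtain ⟨ε, hε1, hε2⟩ := (hev2.and self_mem_nhdsWithin).exists
  have hε0 : 0 < ε := hε2
  have h7 := hε1 l
  rw [inner_add_right, inner_smul_right, inner_sub_right, hx.2] at h7
  nlinarith [hp l]

/-- the boundary of a convex polyhedron is connected -/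
theorem frontier_pre {P : Pool.Agent.R118.PM.Poly ι} (hP : IsPolyhedron P) : IsPreconnected (frontier P.body) := by
  obtain ⟨p, hp⟩ := hP.interior
  have hopen : IsOpen {w : E3 | ∀ i, inner ℝ (P.n i) w < P.b i} := by
    have : {w : E3 | ∀ i, inner ℝ (P.n i) w < P.b i} = ⋂ i, {w : E3 | inner ℝ (P.n i) w < P.b i} := by ext; simp
    rw [this]
    exact isOpen_iInter_of_finite fun i => isOpen_lt (by fun_prop) continuous_const
  have hpi : p ∈ interior P.body := interior_maximal (fun z hz i => (hz i).le) hopen hp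
  have hr : 1 < Module.rank ℝ E3 := by
    rw [← Module.finrank_eq_rank, finrank_euclideanSpace_fin]
    norm_num
  have h := frontier_sdiff_preconnected hr (body_convex P) ⟨p, hpi⟩ hP.bounded p
  have h2 : frontier P.body \ {p} = frontier P.body := by
    rw [Set.sdiff_singleton_eq_self]
    intro h3
    exact h3.2 hpi
  rwa [h2] at h

/-- all panels of a simple polyhedron are glued -/
theorem simple_glued {P : Pool.Agent.R118.PM.Poly ι} (hP : IsPolyhedron P) (hS : Simple P) (i j : ι) :
    Glued P i j := by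
  classical
  by_contra hij
  obtain ⟨SA, hSA⟩ : ∃ SA : Set E3, SA = ⋃ l ∈ {l | Glued P i l}, P.face l := ⟨_, rfl⟩
  obtain ⟨SB, hSB⟩ : ∃ SB : Set E3, SB = ⋃ l ∈ {l | ¬ Glued P i l}, P.face l := ⟨_, rfl⟩
  have clA : IsClosed SA := by
    rw [hSA]
    exact Set.Finite.isClosed_biUnion (Set.toFinite _) fun l _ => face_closed P l
  have clB : IsClosed SB := by
    rw [hSB]
    exact Set.Finite.isClosed_biUnion (Set.toFinite _) fun l _ => face_closed P l
  have memA : ∀ w, w ∈ SA ↔ ∃ l, Glued P i l ∧ w ∈ P.face l := by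
    intro w
    rw [hSA]
    simp only [Set.mem_iUnion, Set.mem_ofPred_eq, exists_prop]
  have memB : ∀ w, w ∈ SB ↔ ∃ l, ¬ Glued P i l ∧ w ∈ P.face l := by
    intro w
    rw [hSB]
    simp only [Set.mem_iUnion, Set.mem_ofPred_eq, exists_prop]
  have cover : frontier P.body ⊆ SA ∪ SB := by
    intro w hw
    have hwQ : w ∈ P.body := (body_closed P).frontier_subset hw
    have h5 : ∃ l, w ∈ P.face l := by
      by_contra h
      push Not at h
      have hopen : IsOpen {w : E3 | ∀ i, inner ℝ (P.n i) w < P.b i} := by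
        have : {w : E3 | ∀ i, inner ℝ (P.n i) w < P.b i} = ⋂ i, {w : E3 | inner ℝ (P.n i) w < P.b i} := by
          ext; simp
        rw [this]
        exact isOpen_iInter_of_finite fun i => isOpen_lt (by fun_prop) continuous_const
      exact hw.2 (interior_maximal (fun z hz i => (hz i).le) hopen
        fun l => lt_of_le_of_ne (hwQ l) fun he => h l ⟨hwQ, he⟩)
    obtain ⟨l, hl⟩ := h5
    by_cases hg : Glued P i l
    · exact Or.inl ((memA w).2 ⟨l, hg, hl⟩)
    · exact Or.inr ((memB w).2 ⟨l, hg, hl⟩)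
  have hne : ∀ l, (P.face l).Nonempty := by
    intro l
    by_contra h
    rw [Set.not_nonempty_iff_eq_empty] at h
    have h1 := hP.dim l
    rw [h, vectorSpan_empty, finrank_bot] at h1
    omega
  have hpre := frontier_pre hP
  rw [isPreconnected_closed_iff] at hpre
  obtain ⟨x, hx⟩ := hne i
  obtain ⟨y, hy⟩ := hne j
  obtain ⟨w, hw1, hw2, hw3⟩ := hpre SA SB clA clB cover
    ⟨x, face_frontier hP i hx, (memA x).2 ⟨i, Glued.refl _, hx⟩⟩
    ⟨y, face_frontier hP j hy, (memB y).2 ⟨j, hij, hy⟩⟩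
  obtain ⟨l, hl1, hl2⟩ := (memA w).1 hw2
  obtain ⟨m, hm1, hm2⟩ := (memB w).1 hw3
  have hcl : IsClosed (P.face l ∩ P.face m) := (face_closed P l).inter (face_closed P m)
  have hcpt : IsCompact (P.face l ∩ P.face m) :=
    Metric.isCompact_of_isClosed_isBounded hcl
      (hP.bounded.subset (Set.inter_subset_left.trans (face_sub P l)))
  obtain ⟨v, hv⟩ := hcpt.extremePoints_nonempty ⟨w, hl2, hm2⟩
  have hvb : v ∈ P.body.extremePoints ℝ :=
    ((face_extreme P l).inter (face_extreme P m)).extremePoints_subset_extremePoints hv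
  exact hm1 (Glued.trans _ _ _ hl1 (glued_vertex hP hS hvb hv.1.1 hv.1.2))

end Pool.Agent.V5helper79.PP.Conv
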