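import Pool.Agent.R118.PM.Main
import Pool.Agent.V5helper79.PP.Fam

/-!
# Project PP: convex polyhedra whose panels are glued
-/

set_option autoImplicit false

namespace Pool.Agent.V5helper79.PP.Conv

open Pool.Agent.R118.PM Pool.Agent.V5helper79.PP.Fam

variable {ι : Type}

/-- The panels `i` and `j` of the polyhedron `P` are glued: the least equivalence relation such that, if
`v` and `q 0`, `v` and `q 1`, `v` and `q 2` are points on three edges which are not coplanar, the edge of `v` and
`q k` being contained in the panels `x k` and `y k`, and if `y 0` is glued to `x 1`, `y 1` to `x 2` and `y 2` to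
`x 0`, then `x 0` is glued to `y 0`. (For example, at a vertex `v` of degree three `y k = x (k + 1)`.) -/
inductive Glued (P : Pool.Agent.R118.PM.Poly ι) : ι → ι → Prop
  | refl (i : ι) : Glued P i i
  | symm (i j : ι) : Glued P i j → Glued P j i
  | trans (i j k : ι) : Glued P i j → Glued P j k → Glued P i k
  | tri (v : Pool.Agent.R118.PM.E3) (q : ZMod 3 → Pool.Agent.R118.PM.E3) (x y : ZMod 3 → ι) :
      (∀ k, v ∈ P.face (x k) ∩ P.face (y k)) → (∀ k, q k ∈ P.face (x k) ∩ P.face (y k)) →
      (LinearIndependent ℝ fun k => q k - v) → (∀ k, Glued P (y k) (x (k + 1))) → Glued P (x 0) (y 0)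

/-- glued panels move together -/
theorem glued_agree [Fintype ι] {P : Pool.Agent.R118.PM.Poly ι} (hP : IsPolyhedron P) {M : Set (Set Pool.Agent.R118.PM.E3)}
    (hM : IsMatching P M) {g : ι → ℝ → (Pool.Agent.R118.PM.E3 ≃ᵢ Pool.Agent.R118.PM.E3)} (hg : IsMotion P M g)
    {i j : ι} (h : Glued P i j) : ∀ (x : Pool.Agent.R118.PM.E3) (t : unitInterval), g i t x = g j t x := by
  have hc : ∀ i x, Continuous fun t : unitInterval => g i t x := fun i x =>
    continuousOn_iff_continuous_domRestrict.1 (hg.cont i x)
  induction h with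
  | refl f => intro x t; rfl
  | symm f f' _ ih => intro x t; exact (ih x t).symm
  | trans f f' f'' _ _ ih1 ih2 => intro x t; exact (ih1 x t).trans (ih2 x t)
  | tri v q x y h1 h2 h3 _ ih =>
    have hO : ∀ i (t : unitInterval), g (x i) t v = g (x (i + 1)) t v := by
      intro i t
      rw [← ih i v t]
      exact all_hinges hP hM hg t.2 _ _ v (h1 i)
    have hQ : ∀ i (t : unitInterval), g (x i) t (q i) = g (x (i + 1)) t (q i) := by
      intro i t
      rw [← ih i (q i) t]
      exact all_hinges hP hM hg t.2 _ _ (q i) (h2 i)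
    have e1 : (0 : ZMod 3) + 1 = 1 := by decide
    have e2 : (1 : ZMod 3) + 1 = 2 := by decide
    have e3 : (2 : ZMod 3) + 1 = 0 := by decide
    have hind : LinearIndependent ℝ ![q 0 - v, q 1 - v, q 2 - v] := by
      have h4 := h3.comp ![0, 1, 2] (by decide)
      convert h4 using 1
      ext j
      fin_cases j <;> rfl
    intro z t
    have a0 := hO 0
    have a1 := hO 1
    have b0 := hQ 0
    have b1 := hQ 1
    have b2 := hQ 2
    rw [e1] at a0 b0
    rw [e2] at a1 b1
    rw [e3] at b2
    have h5 := three_agree (A := fun t : unitInterval => g (x 0) t) (B := fun t : unitInterval => g (x 1) t)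
      (C := fun t : unitInterval => g (x 2) t) (hc _) (hc _)
      (fun z => by
        have h00 : ((0 : unitInterval) : ℝ) = 0 := rfl
        show g (x 0) ((0 : unitInterval) : ℝ) z = g (x 1) ((0 : unitInterval) : ℝ) z
        rw [h00, hg.start, hg.start]) hind a0 (fun t => (a0 t).trans (a1 t)) b0 b1 b2 z t
    have h6 := ih 0 z t
    rw [e1] at h6
    rw [h6]
    exact h5

theorem glued_rigid [Fintype ι] {P : Pool.Agent.R118.PM.Poly ι} (hP : IsPolyhedron P) (h : ∀ i j, Glued P i j)
    {M : Set (Set Pool.Agent.R118.PM.E3)} (hM : IsMatching P M) : Rigid P M := by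
  intro g hg t ht
  rcases isEmpty_or_nonempty ι with he | ⟨⟨i0⟩⟩
  · exact ⟨IsometryEquiv.refl _, fun i => he.elim i⟩
  · exact ⟨g i0 t, fun i x _ => glued_agree hP hM hg (h i i0) x ⟨t, ht⟩⟩

end Pool.Agent.V5helper79.PP.Conv
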