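import Mathlib

/-!
# Project PP: paneled polyhedral surfaces
-/

set_option autoImplicit false

namespace Pool.Agent.V5helper79.PP

/-- Euclidean space of dimension three -/
abbrev E3 : Type := EuclideanSpace ℝ (Fin 3)

/-- A closed polyhedral surface in space (for example the boundary of a convex polyhedron), with vertices `V`, edges
`E` and panels `F`: `pos v` is the position of the vertex `v`, `a e` and `b e` are the two endpoints of the edge `e`,
`l e` and `r e` are the two panels which contain `e`. Around each vertex `v` the edges at `v`, in cyclic order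
`e 0, …, e (n - 1)`, and the panels at `v`, `f 0, …, f (n - 1)`, alternate. -/
structure Surface (V E F : Type) where
  pos : V → E3
  a : E → V
  b : E → V
  l : E → F
  r : E → F
  cyc : ∀ v : V, ∃ (n : ℕ) (e : ZMod n → E) (f : ZMod n → F), 3 ≤ n ∧ Function.Injective e ∧
    (∀ x : E, (a x = v ∨ b x = v) ↔ x ∈ Set.range e) ∧
    ∀ i : ZMod n, (l (e i) = f i ∧ r (e i) = f (i + 1)) ∨ (r (e i) = f i ∧ l (e i) = f (i + 1))

variable {V E F : Type}

/-- A motion of the panels: at each time `t` in `[0, 1]` the panel `f` has been moved by the isometry `g f t` of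
space, which depends continuously on `t` and is the identity at the time `0`; for each edge in `H` there is a hinge:
the two panels at this edge have the edge in common at all times. -/
def IsMotion (S : Surface V E F) (H : Set E) (g : F → unitInterval → E3 ≃ᵢ E3) : Prop :=
  (∀ f x, Continuous fun t => g f t x) ∧ (∀ f x, g f 0 x = x) ∧
    ∀ e ∈ H, ∀ t, ∀ x ∈ segment ℝ (S.pos (S.a e)) (S.pos (S.b e)), g (S.l e) t x = g (S.r e) t x

/-- Every motion moves all panels by one common isometry at each time. -/
def Rigid (S : Surface V E F) (H : Set E) : Prop :=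
  ∀ g, IsMotion S H g → ∀ f f' t x, g f t x = g f' t x

/-- `M` is a matching: different edges in `M` have no common endpoint. -/
def Matching (S : Surface V E F) (M : Set E) : Prop :=
  ∀ e ∈ M, ∀ e' ∈ M, e ≠ e' → S.a e ≠ S.a e' ∧ S.a e ≠ S.b e' ∧ S.b e ≠ S.a e' ∧ S.b e ≠ S.b e'

/-- The panels `f` and `f'` are glued: the least equivalence relation such that, if the three edges `e 0`, `e 1`, `e 2`
at a vertex `v` are not coplanar (`e i` joins `v` to `q i` and is contained in the panels `x i` and `y i`), and `y 0`
is glued to `x 1`, `y 1` to `x 2`, and `y 2` to `x 0`, then `x 0` is glued to `y 0`. (For example, all panels at a vertex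
of degree three are glued: there `y i = x (i + 1)`.) -/
inductive Glued (S : Surface V E F) : F → F → Prop
  | refl (f : F) : Glued S f f
  | symm (f f' : F) : Glued S f f' → Glued S f' f
  | trans (f f' f'' : F) : Glued S f f' → Glued S f' f'' → Glued S f f''
  | tri (v : V) (e : ZMod 3 → E) (q : ZMod 3 → V) (x y : ZMod 3 → F) :
      (∀ i, (S.a (e i) = v ∧ S.b (e i) = q i) ∨ (S.b (e i) = v ∧ S.a (e i) = q i)) →
      (∀ i, (S.l (e i) = x i ∧ S.r (e i) = y i) ∨ (S.r (e i) = x i ∧ S.l (e i) = y i)) →
      (LinearIndependent ℝ fun i => S.pos (q i) - S.pos v) → (∀ i, Glued S (y i) (x (i + 1))) → Glued S (x 0) (y 0)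

end Pool.Agent.V5helper79.PP
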