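import Pool.Agent.V5helper79.PP.Defs

/-!
# Project PP: proofs
-/

set_option autoImplicit false

namespace Pool.Agent.V5helper79.PP

variable {V E F : Type}

/-- isometries which agree at two points agree on the segment -/
theorem agree_segment (A B : E3 ≃ᵢ E3) {p q : E3} (hp : A p = B p) (hq : A q = B q) {x : E3}
    (hx : x ∈ segment ℝ p q) : A x = B x := by
  rw [segment_eq_image_lineMap] at hx
  obtain ⟨θ, -, rfl⟩ := hx
  have hA := (A.toRealAffineIsometryEquiv).toAffineEquiv.toAffineMap.apply_lineMap p q θ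
  have hB := (B.toRealAffineIsometryEquiv).toAffineEquiv.toAffineMap.apply_lineMap p q θ
  have eA : ∀ y, (A.toRealAffineIsometryEquiv).toAffineEquiv.toAffineMap y = A y := fun y => rfl
  have eB : ∀ y, (B.toRealAffineIsometryEquiv).toAffineEquiv.toAffineMap y = B y := fun y => rfl
  rw [eA, eA, eA] at hA
  rw [eB, eB, eB] at hB
  rw [hA, hB, hp, hq]

/-- the endpoint of a cut edge stays common to the two panels -/
theorem common_end (S : Surface V E F) {M : Set E} (hM : Matching S M) {g : F → unitInterval → E3 ≃ᵢ E3}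
    (hg : IsMotion S Mᶜ g) (x : E) (hx : x ∈ M) (v : V) (hv : S.a x = v ∨ S.b x = v) (t : unitInterval) :
    g (S.l x) t (S.pos v) = g (S.r x) t (S.pos v) := by
  obtain ⟨n, e, f, hn, he, hr, hf⟩ := S.cyc v
  obtain ⟨i0, rfl⟩ := (hr x).1 hv
  have : NeZero n := ⟨by omega⟩
  have hstep : ∀ i, i ≠ i0 → g (f i) t (S.pos v) = g (f (i + 1)) t (S.pos v) := by
    intro i hi
    have h1 : e i ∉ M := by
      intro h2
      obtain ⟨h3, h4, h5, h6⟩ := hM _ h2 _ hx fun h => hi (he h)
      rcases (hr (e i)).2 ⟨i, rfl⟩ with h7 | h7 <;> rcases hv with h8 | h8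
      · exact h3 (h7.trans h8.symm)
      · exact h4 (h7.trans h8.symm)
      · exact h5 (h7.trans h8.symm)
      · exact h6 (h7.trans h8.symm)
    have h2 : S.pos v ∈ segment ℝ (S.pos (S.a (e i))) (S.pos (S.b (e i))) := by
      rcases (hr (e i)).2 ⟨i, rfl⟩ with h7 | h7
      · rw [h7]; exact left_mem_segment ℝ _ _
      · rw [h7]; exact right_mem_segment ℝ _ _
    have h3 := hg.2.2 (e i) h1 t _ h2
    rcases hf i with ⟨h4, h5⟩ | ⟨h4, h5⟩
    · rw [h4, h5] at h3; exact h3
    · rw [h4, h5] at h3; exact h3.symm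
  have hchain : ∀ k : ℕ, k < n → g (f (i0 + 1)) t (S.pos v) = g (f (i0 + 1 + k)) t (S.pos v) := by
    intro k
    induction k with
    | zero => intro _; simp
    | succ k ih =>
      intro hk
      rw [ih (by omega), hstep]
      · push_cast
        rw [add_assoc (i0 + 1)]
      · intro h
        have h1 : ((k + 1 : ℕ) : ZMod n) = 0 := by
          have h2 : i0 + 1 + (k : ZMod n) = i0 + ((k + 1 : ℕ) : ZMod n) := by push_cast; ring
          rw [h2] at h
          exact add_eq_left.1 h
        rw [ZMod.natCast_eq_zero_iff] at h1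
        exact absurd (Nat.le_of_dvd (by omega) h1) (by omega)
  have h1 := hchain (n - 1) (by omega)
  have h2 : i0 + 1 + ((n - 1 : ℕ) : ZMod n) = i0 := by
    rw [Nat.cast_sub (by omega), ZMod.natCast_self]
    push_cast
    ring
  rw [h2] at h1
  rcases hf i0 with ⟨h4, h5⟩ | ⟨h4, h5⟩
  · rw [h4, h5]; exact h1.symm
  · rw [h4, h5]; exact h1

/-- the cut hinges are implied by the other ones -/
theorem motion_iff (S : Surface V E F) {M : Set E} (hM : Matching S M) (g : F → unitInterval → E3 ≃ᵢ E3) :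
    IsMotion S Mᶜ g ↔ IsMotion S Set.univ g := by
  constructor
  · intro hg
    refine ⟨hg.1, hg.2.1, fun e _ t x hx => ?_⟩
    by_cases he : e ∈ M
    · exact agree_segment _ _ (common_end S hM hg e he _ (Or.inl rfl) t) (common_end S hM hg e he _ (Or.inr rfl) t) hx
    · exact hg.2.2 e he t x hx
  · intro hg
    exact ⟨hg.1, hg.2.1, fun e _ t x hx => hg.2.2 e (Set.mem_univ e) t x hx⟩

end Pool.Agent.V5helper79.PP
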