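import Pool.Agent.V5helper79.PP.Main

/-!
# Project PP: three panels at a vertex of degree three
-/

set_option autoImplicit false

namespace Pool.Agent.V5helper79.PP

open scoped RealInnerProductSpace

variable {V E F : Type}

/-- the linear part -/
noncomputable def lin (A : E3 ≃ᵢ E3) : E3 ≃ₗᵢ[ℝ] E3 := A.toRealAffineIsometryEquiv.linearIsometryEquiv

theorem lin_sub (A : E3 ≃ᵢ E3) (x y : E3) : lin A (x - y) = A x - A y :=
  A.toRealAffineIsometryEquiv.map_vsub x y

theorem two_values {u v z w z0 z1 : E3} (huv : LinearIndependent ℝ ![u, v]) (h1 : ⟪w, u⟫ = ⟪z, u⟫)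
    (h2 : ⟪w, v⟫ = ⟪z, v⟫) (h3 : ‖w‖ = ‖z‖) (hz0 : z0 ∈ Submodule.span ℝ (Set.range ![u, v]))
    (hz1 : z1 ∈ (Submodule.span ℝ (Set.range ![u, v]))ᗮ) (hz : z = z0 + z1) :
    ‖w - z‖ = 0 ∨ ‖w - z‖ = 2 * ‖z1‖ := by
  obtain ⟨S, hS⟩ : ∃ S, S = Submodule.span ℝ (Set.range ![u, v]) := ⟨_, rfl⟩
  rw [← hS] at hz0 hz1
  have hfr : Module.finrank ℝ S = 2 := by
    rw [hS, finrank_span_eq_card huv]
    simp
  have hfo : Module.finrank ℝ Sᗮ = 1 := by
    have h := Submodule.finrank_add_finrank_orthogonal S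
    rw [hfr, finrank_euclideanSpace_fin] at h
    omega
  obtain ⟨d, hd⟩ : ∃ d, d = w - z := ⟨_, rfl⟩
  have hdS : d ∈ Sᗮ := by
    have h4 : S ≤ (Submodule.span ℝ {d})ᗮ := by
      rw [hS, Submodule.span_le]
      rintro _ ⟨i, rfl⟩
      rw [SetLike.mem_coe, Submodule.mem_orthogonal_singleton_iff_inner_right]
      fin_cases i
      · show ⟪d, u⟫ = 0
        rw [hd, inner_sub_left, h1, sub_self]
      · show ⟪d, v⟫ = 0
        rw [hd, inner_sub_left, h2, sub_self]
    rw [Submodule.mem_orthogonal]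
    intro y hy
    have h5 := h4 hy
    rw [Submodule.mem_orthogonal_singleton_iff_inner_right] at h5
    rw [real_inner_comm]
    exact h5
  have hw : w = z + d := by rw [hd]; abel
  have hn : ‖w‖ ^ 2 = ‖z‖ ^ 2 + 2 * ⟪z, d⟫ + ‖d‖ ^ 2 := by
    rw [hw, norm_add_sq_real]
  have hzd : ⟪z, d⟫ = ⟪z1, d⟫ := by
    rw [hz, inner_add_left, Submodule.inner_right_of_mem_orthogonal hz0 hdS, zero_add]
  rw [h3, hzd] at hn
  rw [← hd]
  by_cases h0 : z1 = 0
  · left
    rw [h0, inner_zero_left] at hn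
    have : ‖d‖ ^ 2 = 0 := by linarith
    exact pow_eq_zero_iff (two_ne_zero) |>.1 this
  · have h6 := (finrank_eq_one_iff_of_nonzero' (⟨z1, hz1⟩ : Sᗮ) (fun h => h0 (congrArg Subtype.val h))).1 hfo ⟨d, hdS⟩
    obtain ⟨c, hc⟩ := h6
    have hc' : d = c • z1 := (congrArg Subtype.val hc).symm
    rw [hc', inner_smul_right, real_inner_self_eq_norm_sq, norm_smul, mul_pow, Real.norm_eq_abs, sq_abs] at hn
    have h7 : 0 < ‖z1‖ ^ 2 := by
      have := norm_pos_iff.2 h0
      positivity
    have h8 : c * (c + 2) = 0 := by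
      have h9 : (c * (c + 2)) * ‖z1‖ ^ 2 = 0 := by nlinarith
      rcases mul_eq_zero.1 h9 with h | h
      · exact h
      · exact absurd h h7.ne'
    rw [hc', norm_smul]
    rcases mul_eq_zero.1 h8 with h | h
    · left; rw [h]; simp
    · right
      have : c = -2 := by linarith
      rw [this]
      simp

theorem fam_agree {A B : unitInterval → E3 ≃ᵢ E3} (hA : ∀ x, Continuous fun t => A t x)
    (hB : ∀ x, Continuous fun t => B t x) (h0 : ∀ x, A 0 x = B 0 x) {O x u v : E3}
    (huv : LinearIndependent ℝ ![u, v]) (hO : ∀ t, A t O = B t O)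
    (h1 : ∀ t, ⟪lin (B t) (x - O), lin (A t) u⟫ = ⟪x - O, u⟫)
    (h2 : ∀ t, ⟪lin (B t) (x - O), lin (A t) v⟫ = ⟪x - O, v⟫) (t : unitInterval) : A t x = B t x := by
  obtain ⟨z0, hz0, z1, hz1, hz⟩ :=
    Submodule.exists_add_mem_mem_orthogonal (K := Submodule.span ℝ (Set.range ![u, v])) (x - O)
  have key : ∀ t, dist (B t x) (A t x) = 0 ∨ dist (B t x) (A t x) = 2 * ‖z1‖ := by
    intro t
    have h3 : ∀ y, ⟪(lin (A t)).symm (lin (B t) (x - O)), y⟫ = ⟪lin (B t) (x - O), lin (A t) y⟫ := by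
      intro y
      rw [← (lin (A t)).inner_map_map, LinearIsometryEquiv.apply_symm_apply]
    have h4 := two_values (w := (lin (A t)).symm (lin (B t) (x - O))) huv (by rw [h3, h1]) (by rw [h3, h2])
      (by rw [LinearIsometryEquiv.norm_map, LinearIsometryEquiv.norm_map]) hz0 hz1 hz
    have h5 : ‖(lin (A t)).symm (lin (B t) (x - O)) - (x - O)‖ = dist (B t x) (A t x) := by
      rw [← (lin (A t)).norm_map, map_sub, LinearIsometryEquiv.apply_symm_apply, lin_sub, lin_sub, hO t,
        sub_sub_sub_cancel_right, dist_eq_norm]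
    rwa [h5] at h4
  have hcont : Continuous fun t => dist (B t x) (A t x) := (hB x).dist (hA x)
  by_contra hne
  have hpos : 0 < dist (B t x) (A t x) := dist_pos.2 fun h => hne h.symm
  have h6 : dist (B t x) (A t x) = 2 * ‖z1‖ := by
    rcases key t with h | h
    · exact absurd h hpos.ne'
    · exact h
  obtain ⟨s, hs⟩ := mem_range_of_exists_le_of_exists_ge hcont (c := dist (B t x) (A t x) / 2)
    ⟨0, by rw [h0 x, dist_self]; positivity⟩ ⟨t, by linarith⟩
  have hs' : dist (B s x) (A s x) = dist (B t x) (A t x) / 2 := hs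
  rcases key s with h | h
  · linarith
  · linarith

/-- three families of isometries which agree in pairs on three non-coplanar lines through a point -/
theorem three_agree {A B C : unitInterval → E3 ≃ᵢ E3} (hA : ∀ x, Continuous fun t => A t x)
    (hB : ∀ x, Continuous fun t => B t x) (h0 : ∀ x, A 0 x = B 0 x) {O P Q R : E3}
    (hind : LinearIndependent ℝ ![P - O, Q - O, R - O]) (hO : ∀ t, A t O = B t O) (hO' : ∀ t, A t O = C t O)
    (hP : ∀ t, A t P = B t P) (hQ : ∀ t, B t Q = C t Q) (hR : ∀ t, C t R = A t R) (x : E3) (t : unitInterval) :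
    A t x = B t x := by
  have hPR : LinearIndependent ℝ ![P - O, R - O] := by
    have h := hind.comp ![0, 2] (by decide)
    convert h using 1
    ext i
    fin_cases i <;> rfl
  have hPQ : LinearIndependent ℝ ![P - O, Q - O] := by
    have h := hind.comp ![0, 1] (by decide)
    convert h using 1
    ext i
    fin_cases i <;> rfl
  have hu : ∀ t, lin (A t) (P - O) = lin (B t) (P - O) := fun t => by rw [lin_sub, lin_sub, hP, hO]
  have hAQ : ∀ t, A t Q = B t Q := by
    refine fam_agree hA hB h0 hPR hO (fun t => ?_) fun t => ?_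
    · rw [hu, LinearIsometryEquiv.inner_map_map]
    · have h1 : lin (B t) (Q - O) = lin (C t) (Q - O) := by rw [lin_sub, lin_sub, hQ, ← hO, hO']
      have h2 : lin (A t) (R - O) = lin (C t) (R - O) := by rw [lin_sub, lin_sub, hR, hO']
      rw [h1, h2, LinearIsometryEquiv.inner_map_map]
  refine fam_agree hA hB h0 hPQ hO (fun t => ?_) (fun t => ?_) t
  · rw [hu, LinearIsometryEquiv.inner_map_map]
  · have h1 : lin (A t) (Q - O) = lin (B t) (Q - O) := by rw [lin_sub, lin_sub, hAQ, hO]
    rw [h1, LinearIsometryEquiv.inner_map_map]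

/-- glued panels move together -/
theorem glued_agree (S : Surface V E F) {g : F → unitInterval → E3 ≃ᵢ E3} (hg : IsMotion S Set.univ g) {f f' : F}
    (h : Glued S f f') : ∀ (x : E3) (t : unitInterval), g f t x = g f' t x := by
  induction h with
  | refl f => intro x t; rfl
  | symm f f' _ ih => intro x t; exact (ih x t).symm
  | trans f f' f'' _ _ ih1 ih2 => intro x t; exact (ih1 x t).trans (ih2 x t)
  | tri v e q x y h1 h2 h3 _ ih =>
    have hO : ∀ i t, g (x i) t (S.pos v) = g (x (i + 1)) t (S.pos v) := by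
      intro i t
      have h4 : S.pos v ∈ segment ℝ (S.pos (S.a (e i))) (S.pos (S.b (e i))) := by
        rcases h1 i with ⟨h5, -⟩ | ⟨h5, -⟩
        · rw [h5]; exact left_mem_segment ℝ _ _
        · rw [h5]; exact right_mem_segment ℝ _ _
      have h6 := hg.2.2 (e i) (Set.mem_univ _) t _ h4
      rw [← ih i (S.pos v) t]
      rcases h2 i with ⟨h7, h8⟩ | ⟨h7, h8⟩
      · rw [h7, h8] at h6; exact h6
      · rw [h7, h8] at h6; exact h6.symm
    have hQ : ∀ i t, g (x i) t (S.pos (q i)) = g (x (i + 1)) t (S.pos (q i)) := by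
      intro i t
      have h4 : S.pos (q i) ∈ segment ℝ (S.pos (S.a (e i))) (S.pos (S.b (e i))) := by
        rcases h1 i with ⟨-, h5⟩ | ⟨-, h5⟩
        · rw [h5]; exact right_mem_segment ℝ _ _
        · rw [h5]; exact left_mem_segment ℝ _ _
      have h6 := hg.2.2 (e i) (Set.mem_univ _) t _ h4
      rw [← ih i (S.pos (q i)) t]
      rcases h2 i with ⟨h7, h8⟩ | ⟨h7, h8⟩
      · rw [h7, h8] at h6; exact h6
      · rw [h7, h8] at h6; exact h6.symm
    have e1 : (0 : ZMod 3) + 1 = 1 := by decide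
    have e2 : (1 : ZMod 3) + 1 = 2 := by decide
    have e3 : (2 : ZMod 3) + 1 = 0 := by decide
    have hind : LinearIndependent ℝ ![S.pos (q 0) - S.pos v, S.pos (q 1) - S.pos v, S.pos (q 2) - S.pos v] := by
      have h4 := h3.comp ![0, 1, 2] (by decide)
      convert h4 using 1
      ext j
      fin_cases j <;> rfl
    intro z t
    have a0 := hO 0
    have a1 := hO 1
    have b0 := hQ 0
    have b1 := hQ 1
    have b2 := hQ 2
    rw [e1] at a0 b0
    rw [e2] at a1 b1
    rw [e3] at b2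
    have h5 := three_agree (A := g (x 0)) (B := g (x 1)) (C := g (x 2)) (hg.1 _) (hg.1 _)
      (fun z => by rw [hg.2.1, hg.2.1]) hind a0 (fun t => (a0 t).trans (a1 t)) b0 b1 b2 z t
    have h6 := ih 0 z t
    rw [e1] at h6
    rw [h6]
    exact h5

theorem glued_rigid (S : Surface V E F) (h : ∀ f f', Glued S f f') {M : Set E} (hM : Matching S M) : Rigid S Mᶜ := by
  intro g hg f f' t x
  exact glued_agree S ((motion_iff S hM g).1 hg) (h f f') x t

theorem rigid_iff (S : Surface V E F) {M : Set E} (hM : Matching S M) : Rigid S Mᶜ ↔ Rigid S Set.univ := by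
  constructor
  · intro h g hg
    exact h g ((motion_iff S hM g).2 hg)
  · intro h g hg
    exact h g ((motion_iff S hM g).1 hg)

end Pool.Agent.V5helper79.PP
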